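import Mathlib
import Pool.Agent.Lib.MP_fddcb9_nt.Main

set_option autoImplicit false

namespace Pool.Agent.Results.MP_fddcb9_nt.CriticalSubsetSums

/-- For every prime `p > 10 ^ 40` and every `A ⊆ ℤ_p` with `|A| = ⌊2 √(p - 2)⌋`, some residue is not
a subset sum of `A` (the empty sum being allowed) if and only if some dilate `b · A`, `b ≠ 0`, has
norm at most `p - 2`, the norm being the sum of the absolute values of the representatives in
`[-(p-1)/2, (p-1)/2]`. -/
theorem result : ∀ p : ℕ, p.Prime → 10 ^ 40 < p → ∀ A : Finset (ZMod p),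
    A.card = ⌊2 * Real.sqrt ((p : ℝ) - 2)⌋₊ →
      ((∃ x : ZMod p, ∀ B ⊆ A, ∑ a ∈ B, a ≠ x) ↔
        ∃ b : ZMod p, b ≠ 0 ∧
          ∑ y ∈ A.image (fun a => b * a), |(ZMod.valMinAbs y)| ≤ (p : ℤ) - 2) := by
  intro p hp hlt A hA
  have hfact : Fact p.Prime := ⟨hp⟩
  obtain ⟨h1, h2, h3⟩ := Pool.Agent.Lib.FDD.size_facts p A.card hp hlt hA
  exact Pool.Agent.Lib.FDD.main_equiv_empty A A.card rfl h1 h2 h3

end Pool.Agent.Results.MP_fddcb9_nt.CriticalSubsetSums
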